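import Pool.Agent.Helper82.YM.RP

/-!
# Wilson loops and reflection positivity on the periodic lattice

Doubling of rectangles (`loop_double`, `loop_double'`) and the resulting bound on the mean square
deviation of all rectangular Wilson loops (`loop_all`).
-/

open MeasureTheory
open scoped Matrix.Norms.Frobenius ComplexConjugate

set_option linter.unusedSectionVars false

noncomputable section

namespace Pool.Agent.Helper82.YM

open Pool.Agent.LGT (tr haar)

/-! ### Lines and rectangles -/

section Lines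

variable {L : ℕ} {Γ : Type*} [Group Γ]

lemma tline_zero (U : TE L → Γ) (x : TV L) (i : Fin 4) : tline U x i 0 = 1 := rfl

lemma tline_succ (U : TE L → Γ) (x : TV L) (i : Fin 4) (n : ℕ) :
    tline U x i (n + 1) = tline U x i n * U (x + n • ts i, i) := rfl

lemma tline_add (U : TE L → Γ) (x : TV L) (i : Fin 4) (a b : ℕ) :
    tline U x i (a + b) = tline U x i a * tline U (x + a • ts i) i b := by
  induction b with
  | zero => simp [tline_zero]
  | succ b ih =>
    rw [← add_assoc, tline_succ, ih, tline_succ, mul_assoc]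
    congr 3
    rw [add_smul]; abel_nf

/-- First edge first. -/
lemma tline_succ' (U : TE L → Γ) (x : TV L) (i : Fin 4) (n : ℕ) :
    tline U x i (n + 1) = U (x, i) * tline U (x + ts i) i n := by
  rw [add_comm, tline_add, tline_succ, tline_zero, one_mul, zero_smul, add_zero, one_smul]

lemma trect_swap (U : TE L → Γ) (x : TV L) (i j : Fin 4) (a b : ℕ) :
    trect U x i j a b = (trect U x j i b a)⁻¹ := by
  simp only [trect, mul_inv_rev, inv_inv, mul_assoc]

lemma trect_one_one (U : TE L → Γ) (x : TV L) (i j : Fin 4) :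
    trect U x i j 1 1 = tplaq U x i j := by
  simp [trect, tplaq, tline]

lemma trect_zero_left (U : TE L → Γ) (x : TV L) (i j : Fin 4) (b : ℕ) :
    trect U x i j 0 b = 1 := by
  simp [trect, tline]

/-- Two adjacent rectangles. -/
lemma trect_add (U : TE L → Γ) (x : TV L) (i j : Fin 4) (a₁ a₂ b : ℕ) :
    trect U x i j (a₁ + a₂) b =
      (tline U x i a₁ * trect U (x + a₁ • ts i) i j a₂ b * (tline U x i a₁)⁻¹) *
        trect U x i j a₁ b := by
  have h1 : x + (a₁ + a₂) • ts i = x + a₁ • ts i + a₂ • ts i := by rw [add_smul]; abel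
  have h2 : x + a₁ • ts i + b • ts j = x + b • ts j + a₁ • ts i := by abel
  simp only [trect, tline_add, h1, h2]
  group

/-- The reflection of a line orthogonal to the plane. -/
lemma tline_reflU_self (i : Fin 4) (h : ZMod L) (U : TE L → Γ) (x : TV L) (n : ℕ) :
    tline (reflU i h U) x i n = (tline U (refl i h (x + n • ts i)) i n)⁻¹ := by
  induction n with
  | zero => simp [tline_zero]
  | succ n ih =>
    rw [tline_succ, ih, tline_succ']
    have h1 : reflU i h U (x + n • ts i, i) = (U (refl i h (x + (n + 1) • ts i), i))⁻¹ := by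
      have : x + n • ts i + ts i = x + (n + 1) • ts i := by rw [add_smul, one_smul]; abel
      rw [reflU, if_pos rfl, this]
    have h2 : refl i h (x + (n + 1) • ts i) + ts i = refl i h (x + n • ts i) := by
      rw [refl_add_self, refl_add_self, add_smul, one_smul]; abel
    rw [h1, h2, mul_inv_rev]

/-- The reflection of a line parallel to the plane. -/
lemma tline_reflU_ne {i j : Fin 4} (hij : j ≠ i) (h : ZMod L) (U : TE L → Γ) (x : TV L) (n : ℕ) :
    tline (reflU i h U) x j n = tline U (refl i h x) j n := by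
  induction n with
  | zero => simp [tline_zero]
  | succ n ih =>
    rw [tline_succ, ih, tline_succ]
    congr 1
    rw [reflU, if_neg hij, refl_add_ne hij]

lemma refl_fix (i : Fin 4) (h : ZMod L) (x : TV L) (hx : x i = h) : refl i h x = x := by
  funext k
  by_cases hk : k = i
  · subst hk; rw [refl_apply_self, hx]; ring
  · rw [refl_apply_ne hk]

end Lines

section Local

variable {L m : ℕ} {Γ : Type*} [Group Γ]

lemma tline_congr (U U' : TE L → Γ) (x : TV L) (i : Fin 4) (n : ℕ)
    (hU : ∀ s, s < n → U (x + s • ts i, i) = U' (x + s • ts i, i)) :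
    tline U x i n = tline U' x i n := by
  induction n with
  | zero => rfl
  | succ n ih =>
    rw [tline_succ, tline_succ, ih fun s hs => hU s (hs.trans n.lt_succ_self),
      hU n n.lt_succ_self]

/-- A line in the closed half, orthogonal to the plane. -/
lemma tline_local_self [NeZero L] (hL : L = 2 * m) {i : Fin 4} {h : ZMod L} {x : TV L} {a n : ℕ}
    (hx : x i + a = h) (ha : a ≤ m) (hm : 1 ≤ m) (hn : n ≤ a) {U U' : TE L → Γ}
    (hU : ∀ e, inHE m i h e → U e = U' e) : tline U x i n = tline U' x i n := by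
  refine tline_congr _ _ _ _ _ fun s hs => hU _ ?_
  have h1 : ∀ t : ℕ, t ≤ a → (h - (x + t • ts i : TV L) i).val ≤ m := by
    intro t ht
    have : h - (x + t • ts i : TV L) i = ((a - t : ℕ) : ZMod L) := by
      rw [← hx, Pi.add_apply, Nat.cast_sub ht]
      simp [ts]
    rw [this, ZMod.val_natCast_of_lt (by omega)]
    omega
  refine ⟨h1 s (by omega), ?_⟩
  have : x + s • ts i + ts i = x + (s + 1) • ts i := by rw [add_smul, one_smul]; abel
  show inHV m i h (x + s • ts i + ts i)
  rw [this]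
  exact h1 (s + 1) (by omega)

/-- A line in the closed half, parallel to the plane. -/
lemma tline_local_ne [NeZero L] (hL : L = 2 * m) {i j : Fin 4} (hij : j ≠ i) {h : ZMod L}
    {x : TV L} {a n : ℕ} (hx : x i + a = h) (ha : a ≤ m) (hm : 1 ≤ m) {U U' : TE L → Γ}
    (hU : ∀ e, inHE m i h e → U e = U' e) : tline U x j n = tline U' x j n := by
  refine tline_congr _ _ _ _ _ fun s _ => hU _ ?_
  rw [inHE_ne hij]
  show (h - (x + s • ts j : TV L) i).val ≤ m
  have : h - (x + s • ts j : TV L) i = (a : ZMod L) := by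
    rw [← hx, Pi.add_apply]
    simp [ts, hij.symm]
  rw [this, ZMod.val_natCast_of_lt (by omega)]
  exact ha

end Local

variable {N : ℕ} {G : Subgroup (Matrix.unitaryGroup (Fin N) ℂ)}

lemma tr_inv (g : G) : tr g⁻¹ = conj (tr g) := by
  rw [tr_eq, mat_inv, tr_eq, Matrix.star_eq_conjTranspose, Matrix.trace_conjTranspose]
  rfl

variable [CompactSpace G]

/-- The function `F Q⁻¹` of the proof of `loop_double`. -/
def ff {L : ℕ} (x : TV L) (i j : Fin 4) (a b : ℕ) (U : TE L → G) : G :=
  (tline U x i a)⁻¹ * tline U x j b * tline U (x + b • ts j) i a *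
    (tline U (x + a • ts i) j b)⁻¹

lemma tr_ff {L : ℕ} (x : TV L) (i j : Fin 4) (a b : ℕ) (U : TE L → G) :
    tr (ff x i j a b U) = conj (tr (trect U x i j a b)) := by
  rw [← tr_inv]
  have : ff x i j a b U = (tline U x i a)⁻¹ * (trect U x i j a b)⁻¹ * (tline U x i a)⁻¹⁻¹ := by
    simp only [ff, trect]; group
  rw [this, tr_conj]

lemma continuous_ff {L : ℕ} (x : TV L) (i j : Fin 4) (a b : ℕ) :
    Continuous (ff (G := G) x i j a b) := by
  unfold ff
  fun_prop

lemma ff_local {L m : ℕ} [NeZero L] (hL : L = 2 * m) (hm : 2 ≤ m) (x : TV L)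
    {i j : Fin 4} (hij : i ≠ j) (a b : ℕ) (ha : a ≤ m) {U U' : TE L → G}
    (hU : ∀ e, inHE m i (x i + (a : ZMod L)) e → U e = U' e) :
    ff x i j a b U = ff x i j a b U' := by
  have h1 : (x + b • ts j : TV L) i + (a : ZMod L) = x i + (a : ZMod L) := by simp [ts, hij]
  have h2 : (x + a • ts i : TV L) i + ((0 : ℕ) : ZMod L) = x i + (a : ZMod L) := by simp [ts]
  unfold ff
  rw [tline_local_self hL (h := x i + (a : ZMod L)) (a := a) rfl ha (by omega) le_rfl hU,
    tline_local_ne hL hij.symm (h := x i + (a : ZMod L)) (a := a) rfl ha (by omega) hU,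
    tline_local_self hL (h := x i + (a : ZMod L)) (a := a) h1 ha (by omega) le_rfl hU,
    tline_local_ne hL hij.symm (h := x i + (a : ZMod L)) (a := 0) h2 (by omega) (by omega) hU]

lemma tr_ff_mul {L : ℕ} [NeZero L] (x : TV L)
    {i j : Fin 4} (hij : i ≠ j) (a b : ℕ) (U : TE L → G) :
    tr (ff x i j a b U * (ff x i j a b (reflU i (x i + (a : ZMod L)) U))⁻¹) =
      conj (tr (trect U x i j (2 * a) b)) := by
  rw [← tr_inv]
  have r1 : refl i (x i + (a : ZMod L)) (x + a • ts i) = x + a • ts i := refl_fix _ _ _ (by simp [ts])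
  have r2 : refl i (x i + (a : ZMod L)) x = x + (2 * a) • ts i := by
    have := refl_add_self i (x i + (a : ZMod L)) x a
    rw [r1] at this
    rw [two_mul, add_smul, ← add_assoc, this]; abel
  have r3 : refl i (x i + (a : ZMod L)) (x + b • ts j + a • ts i) = x + b • ts j + a • ts i :=
    refl_fix _ _ _ (by simp [ts, hij])
  have e1 : ff x i j a b (reflU i (x i + (a : ZMod L)) U) =
      tline U (x + a • ts i) i a * tline U (x + (2 * a) • ts i) j b *
        (tline U (x + b • ts j + a • ts i) i a)⁻¹ * (tline U (x + a • ts i) j b)⁻¹ := by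
    rw [ff, tline_reflU_self, tline_reflU_ne hij.symm, tline_reflU_self,
      tline_reflU_ne hij.symm, r1, r2, r3, inv_inv]
  have e2 : trect U x i j (2 * a) b = tline U x i a * tline U (x + a • ts i) i a *
      tline U (x + (2 * a) • ts i) j b *
      (tline U (x + b • ts j) i a * tline U (x + b • ts j + a • ts i) i a)⁻¹ *
      (tline U x j b)⁻¹ := by
    rw [trect]
    have h1 : tline U x i (2 * a) = tline U x i a * tline U (x + a • ts i) i a := by
      rw [two_mul, tline_add]
    have h2 : tline U (x + b • ts j) i (2 * a) =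
        tline U (x + b • ts j) i a * tline U (x + b • ts j + a • ts i) i a := by
      rw [two_mul, tline_add]
    rw [h1, h2]
  have e3 : ff x i j a b U * (ff x i j a b (reflU i (x i + (a : ZMod L)) U))⁻¹ =
      (tline U x i a)⁻¹ * (trect U x i j (2 * a) b)⁻¹ * (tline U x i a)⁻¹⁻¹ := by
    rw [e1, e2, ff]
    group
  rw [e3, tr_conj]

theorem loop_double {L m : ℕ} [NeZero L] (hL : L = 2 * m) (hm : 2 ≤ m) (β : ℝ) (x : TV L)
    {i j : Fin 4} (hij : i ≠ j) (a b : ℕ) (ha : a ≤ m) :
    ‖∫ U, tr (trect U x i j a b) ∂(tmu G β L)‖ ^ 2 ≤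
      N * (∫ U, tr (trect U x i j (2 * a) b) ∂(tmu G β L)).re := by
  set f : (TE L → G) → Matrix (Fin N) (Fin N) ℂ := fun U => mat (ff x i j a b U) with hf
  have hfc : Continuous f := continuous_mat.comp (continuous_ff x i j a b)
  have hfkl : ∀ k l, Continuous fun U => f U k l := fun k l =>
    (continuous_apply_apply k l).comp hfc
  have hrc : Continuous (reflU i (x i + (a : ZMod L)) : (TE L → G) → _) := continuous_reflU _ _
  have hint : ∀ k l, Integrable (fun U => f U k l) (tmu G β L) := fun k l =>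
    integrable_tmu β (hfkl k l)
  -- the trace
  have h1 : ∫ U, tr (trect U x i j a b) ∂(tmu G β L) =
      conj (∑ k, ∫ U, f U k k ∂(tmu G β L)) := by
    rw [← integral_finsetSum _ fun k _ => hint k k, ← integral_conj]
    refine integral_congr_ae (Filter.Eventually.of_forall fun U => ?_)
    dsimp only
    have h2 : (∑ k, f U k k) = tr (ff x i j a b U) := rfl
    rw [h2, tr_ff, Complex.conj_conj]
  have h2 : ‖∫ U, tr (trect U x i j a b) ∂(tmu G β L)‖ ^ 2 ≤
      N * ∑ k, ‖∫ U, f U k k ∂(tmu G β L)‖ ^ 2 := by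
    rw [h1, RCLike.norm_conj]
    have h3 : ‖∑ k, ∫ U, f U k k ∂(tmu G β L)‖ ^ 2 ≤
        (∑ k, ‖∫ U, f U k k ∂(tmu G β L)‖) ^ 2 :=
      pow_le_pow_left₀ (norm_nonneg _) (norm_sum_le _ _) 2
    refine h3.trans ?_
    have h4 := sq_sum_le_card_mul_sum_sq (s := (Finset.univ : Finset (Fin N)))
      (f := fun k => ‖∫ U, f U k k ∂(tmu G β L)‖)
    simpa using h4
  have h3 : ∀ k l, ‖∫ U, f U k l ∂(tmu G β L)‖ ^ 2 ≤
      (∫ U, f U k l * conj (f (reflU i (x i + (a : ZMod L)) U) k l) ∂(tmu G β L)).re := fun k l =>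
    rp hL hm β i (x i + (a : ZMod L)) (hfkl k l) fun U U' hU => by
      simp only [hf]
      rw [ff_local hL hm x hij a b ha hU]
  have hint2 : ∀ k l, Integrable
      (fun U => f U k l * conj (f (reflU i (x i + (a : ZMod L)) U) k l)) (tmu G β L) := fun k l =>
    integrable_tmu β ((hfkl k l).mul (Complex.continuous_conj.comp ((hfkl k l).comp hrc)))
  have h4 : ∑ k, ∑ l, (∫ U, f U k l * conj (f (reflU i (x i + (a : ZMod L)) U) k l) ∂(tmu G β L)).re =
      (∫ U, tr (trect U x i j (2 * a) b) ∂(tmu G β L)).re := by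
    have h5 : ∀ U, ∑ k, ∑ l, f U k l * conj (f (reflU i (x i + (a : ZMod L)) U) k l) =
        conj (tr (trect U x i j (2 * a) b)) := by
      intro U
      rw [← tr_ff_mul x hij a b U, tr_eq, mat_mul, mat_inv, Matrix.trace]
      refine Finset.sum_congr rfl fun k _ => ?_
      rw [Matrix.diag_apply, Matrix.mul_apply]
      rfl
    have h6 : (∫ U, tr (trect U x i j (2 * a) b) ∂(tmu G β L)).re =
        (∫ U, conj (tr (trect U x i j (2 * a) b)) ∂(tmu G β L)).re := by
      rw [integral_conj, Complex.conj_re]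
    rw [h6]
    simp only [← h5]
    rw [integral_finsetSum _ fun k _ => integrable_finsetSum _ fun l _ => hint2 k l,
      Complex.re_sum]
    refine Finset.sum_congr rfl fun k _ => ?_
    rw [integral_finsetSum _ fun l _ => hint2 k l, Complex.re_sum]
  refine h2.trans ?_
  rw [← h4]
  refine mul_le_mul_of_nonneg_left ?_ (Nat.cast_nonneg N)
  refine Finset.sum_le_sum fun k _ => ?_
  refine le_trans ?_ (Finset.sum_le_sum fun l _ => h3 k l)
  exact Finset.single_le_sum (f := fun l => ‖∫ U, f U k l ∂(tmu G β L)‖ ^ 2)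
    (fun l _ => by positivity) (Finset.mem_univ k)

/-- The same for the second side. -/
theorem loop_double' {L m : ℕ} [NeZero L] (hL : L = 2 * m) (hm : 2 ≤ m) (β : ℝ) (x : TV L)
    {i j : Fin 4} (hij : i ≠ j) (a b : ℕ) (hb : b ≤ m) :
    ‖∫ U, tr (trect U x i j a b) ∂(tmu G β L)‖ ^ 2 ≤
      N * (∫ U, tr (trect U x i j a (2 * b)) ∂(tmu G β L)).re := by
  have h := loop_double (G := G) hL hm β x hij.symm b a hb
  have h1 : ∀ a b : ℕ, ∫ U, tr (trect U x i j a b) ∂(tmu G β L) =
      conj (∫ U, tr (trect U x j i b a) ∂(tmu G β L)) := by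
    intro a b
    rw [← integral_conj]
    refine integral_congr_ae (Filter.Eventually.of_forall fun U => ?_)
    dsimp only
    rw [trect_swap, tr_inv]
  rw [h1 a b, h1 a (2 * b), RCLike.norm_conj, Complex.conj_re]
  exact h

/-- The mean square deviation of the rectangle with corner `x`. -/
def msd (G : Subgroup (Matrix.unitaryGroup (Fin N) ℂ)) [CompactSpace G] (β : ℝ) (L : ℕ) [NeZero L]
    (x : TV L) (i j : Fin 4) (a b : ℕ) : ℝ :=
  ∫ U, dev (trect U x i j a b) ^ 2 ∂(tmu G β L)

section MSD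

variable {L : ℕ} [NeZero L] (β : ℝ) (x : TV L) (i j : Fin 4)

lemma integrable_dev_sq (a b : ℕ) :
    Integrable (fun U => dev (trect U x i j a b) ^ 2) (tmu G β L) :=
  integrable_tmu β (by fun_prop)

lemma msd_nonneg (a b : ℕ) : 0 ≤ msd G β L x i j a b :=
  integral_nonneg fun _ => by positivity

lemma msd_eq (a b : ℕ) : msd G β L x i j a b =
    2 * (N - (∫ U, tr (trect U x i j a b) ∂(tmu G β L)).re) := by
  have hi : Integrable (fun U => tr (trect U x i j a b)) (tmu G β L) :=
    integrable_tmu β (by fun_prop)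
  have h1 : (∫ U, tr (trect U x i j a b) ∂(tmu G β L)).re =
      ∫ U, (tr (trect U x i j a b)).re ∂(tmu G β L) := by
    have := integral_re hi
    simpa using this.symm
  rw [h1, msd]
  simp only [dev_sq, cost]
  have h2 : Integrable (fun U => (tr (trect U x i j a b)).re) (tmu G β L) := hi.re
  rw [integral_const_mul, integral_sub (integrable_const _) h2]
  simp

lemma msd_translate (y : TV L) (a b : ℕ) :
    msd G β L (x + y) i j a b = msd G β L x i j a b := by
  have h := integral_comp_mp (measurePreserving_shift (G := G) β y)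
    (f := fun U => dev (trect U x i j a b) ^ 2)
    ((integrable_dev_sq β x i j a b).aestronglyMeasurable)
  rw [msd, msd, ← h]
  simp only [trect_shift]

lemma msd_swap (a b : ℕ) : msd G β L x i j a b = msd G β L x j i b a := by
  rw [msd, msd]
  refine integral_congr_ae (Filter.Eventually.of_forall fun U => ?_)
  dsimp only
  rw [trect_swap, dev_inv]

lemma msd_zero (b : ℕ) : msd G β L x i j 0 b = 0 := by
  rw [msd]
  simp [trect_zero_left, dev_one]

lemma msd_add {c : ℝ} (hc : 0 < c) (a₁ a₂ b : ℕ) :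
    msd G β L x i j (a₁ + a₂) b ≤
      (1 + c) * msd G β L x i j a₁ b + (1 + 1 / c) * msd G β L x i j a₂ b := by
  rw [← msd_translate β x i j (a₁ • ts i) a₂ b]
  rw [msd, msd, msd, ← integral_const_mul, ← integral_const_mul, ← integral_add]
  · refine integral_mono (integrable_dev_sq β x i j _ _) ?_ fun U => ?_
    · exact ((integrable_dev_sq β x i j _ _).const_mul _).add
        ((integrable_dev_sq β _ i j _ _).const_mul _)
    · dsimp only
      set s := dev (trect U x i j a₁ b)
      set t := dev (trect U (x + a₁ • ts i) i j a₂ b)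
      have hs : 0 ≤ s := dev_nonneg _
      have ht : 0 ≤ t := dev_nonneg _
      have h1 : dev (trect U x i j (a₁ + a₂) b) ≤ t + s := by
        rw [trect_add]
        refine (dev_mul_le _ _).trans ?_
        rw [dev_conj]
      have h2 : dev (trect U x i j (a₁ + a₂) b) ^ 2 ≤ (t + s) ^ 2 :=
        pow_le_pow_left₀ (dev_nonneg _) h1 2
      refine h2.trans ?_
      have h3 : 0 ≤ (c * s - t) ^ 2 / c := by positivity
      have h4 : (1 + c) * s ^ 2 + (1 + 1 / c) * t ^ 2 - (t + s) ^ 2 = (c * s - t) ^ 2 / c := by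
        field_simp; ring
      linarith
  · exact (integrable_dev_sq β x i j _ _).const_mul _
  · exact (integrable_dev_sq β _ i j _ _).const_mul _

lemma msd_double {m : ℕ} (hL : L = 2 * m) (hm : 2 ≤ m) (hij : i ≠ j) (a b : ℕ) (ha : a ≤ m) :
    msd G β L x i j (2 * a) b ≤ 2 * msd G β L x i j a b := by
  have h := loop_double (G := G) hL hm β x hij a b ha
  rw [msd_eq, msd_eq]
  set z := ∫ U, tr (trect U x i j a b) ∂(tmu G β L)
  set w := ∫ U, tr (trect U x i j (2 * a) b) ∂(tmu G β L) with hw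
  have h1 : z.re ^ 2 ≤ ‖z‖ ^ 2 := by
    have := Complex.abs_re_le_norm z
    exact sq_le_sq' (by linarith [(abs_le.mp this).1]) (abs_le.mp this).2
  rcases Nat.eq_zero_or_pos N with hN | hN
  · subst hN
    have hw0 : w = 0 := by
      rw [hw]
      have : ∀ g : G, tr g = 0 := fun g => by
        have := norm_tr_le g
        simpa using this
      simp [this]
    have hz0 : z.re = 0 := by
      have : ‖z‖ ^ 2 ≤ 0 := by simpa using h
      nlinarith [sq_nonneg z.re]
    rw [hw0, hz0]; simp
  · have hN' : (0 : ℝ) < N := by exact_mod_cast hN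
    have h2 : (N : ℝ) * (2 * z.re - N) ≤ N * w.re := by
      nlinarith [sq_nonneg (z.re - N)]
    have h3 := le_of_mul_le_mul_left h2 hN'
    linarith

lemma msd_pow {k : ℕ} (hL : L = 2 ^ k) (hk : 2 ≤ k) (hij : i ≠ j) (b p : ℕ) (hp : p ≤ k) :
    msd G β L x i j (2 ^ p) b ≤ 2 ^ p * msd G β L x i j 1 b := by
  induction p with
  | zero => simp
  | succ p ih =>
    have h1 : L = 2 * 2 ^ (k - 1) := by
      rw [hL, ← pow_succ', Nat.sub_add_cancel (by omega)]
    have h2 : 2 ≤ 2 ^ (k - 1) := by
      calc 2 = 2 ^ 1 := rfl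
        _ ≤ 2 ^ (k - 1) := Nat.pow_le_pow_right (by norm_num) (by omega)
    have h3 := msd_double (G := G) β x i j h1 h2 hij (2 ^ p) b
      (Nat.pow_le_pow_right (by norm_num) (by omega))
    rw [← pow_succ'] at h3
    have h4 := ih (by omega)
    calc msd G β L x i j (2 ^ (p + 1)) b ≤ 2 * msd G β L x i j (2 ^ p) b := h3
      _ ≤ 2 * (2 ^ p * msd G β L x i j 1 b) := by linarith
      _ = 2 ^ (p + 1) * msd G β L x i j 1 b := by ring

lemma msd_all {k : ℕ} (hL : L = 2 ^ k) (hk : 2 ≤ k) (hij : i ≠ j) (b a : ℕ)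
    (ha : a ≤ 2 ^ (k - 1)) :
    msd G β L x i j a b ≤ (1 + Real.sqrt 2) ^ 2 * a * msd G β L x i j 1 b := by
  induction a using Nat.strong_induction_on with
  | _ a ih =>
    have hD := msd_nonneg (G := G) β x i j 1 b
    have hs2 : Real.sqrt 2 ^ 2 = 2 := Real.sq_sqrt (by norm_num)
    have hs0 : 0 ≤ Real.sqrt 2 := Real.sqrt_nonneg 2
    rcases Nat.eq_zero_or_pos a with h0 | h0
    · subst h0
      rw [msd_zero]
      simp
    · set p := Nat.log 2 a
      have hp1 : 2 ^ p ≤ a := Nat.pow_log_le_self 2 h0.ne'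
      have hp2 : a < 2 ^ (p + 1) := Nat.lt_pow_succ_log_self (by norm_num) a
      have hp3 : p ≤ k := by
        by_contra hcon
        have : 2 ^ (k - 1) < 2 ^ p := Nat.pow_lt_pow_right (by norm_num) (by omega)
        omega
      obtain ⟨t, ht⟩ := Nat.exists_eq_add_of_le hp1
      have ht2 : t < 2 ^ p := by rw [pow_succ] at hp2; omega
      have h1 := ih t (by have := Nat.two_pow_pos p; omega) (by omega)
      have h2 := msd_pow (G := G) β x i j hL hk hij b p hp3
      set c := 1 + Real.sqrt 2 with hc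
      have hc0 : 0 < c := by positivity
      have hcc : c ^ 2 = 2 * c + 1 := by rw [hc]; nlinarith
      have h3 := msd_add (G := G) β x i j hc0 (2 ^ p) t b
      rw [← ht] at h3
      have h4 : (1 + 1 / c) * (c ^ 2 * t * msd G β L x i j 1 b) =
          (c ^ 2 + c) * t * msd G β L x i j 1 b := by
        field_simp
      have h5 : (1 + 1 / c) * msd G β L x i j t b ≤ (c ^ 2 + c) * t * msd G β L x i j 1 b := by
        rw [← h4]
        exact mul_le_mul_of_nonneg_left h1 (by positivity)
      have h6 : (1 + c) * msd G β L x i j (2 ^ p) b ≤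
          (1 + c) * (2 ^ p * msd G β L x i j 1 b) :=
        mul_le_mul_of_nonneg_left h2 (by positivity)
      have h7 : (t : ℝ) ≤ 2 ^ p := by exact_mod_cast ht2.le
      have h8 : (a : ℝ) = 2 ^ p + t := by rw [ht]; push_cast; ring
      rw [h8]
      have h9 : c * t * msd G β L x i j 1 b ≤ c * 2 ^ p * msd G β L x i j 1 b :=
        mul_le_mul_of_nonneg_right (mul_le_mul_of_nonneg_left h7 hc0.le) hD
      have h10 : c ^ 2 * (2 ^ p + t) * msd G β L x i j 1 b =
          (1 + c) * (2 ^ p * msd G β L x i j 1 b) + (c ^ 2 + c) * t * msd G β L x i j 1 b +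
            (c * 2 ^ p * msd G β L x i j 1 b - c * t * msd G β L x i j 1 b) := by
        rw [hcc]; ring
      linarith

end MSD

lemma msd_final {L k : ℕ} [NeZero L] (hL : L = 2 ^ k) (hk : 2 ≤ k) (β : ℝ) (x : TV L)
    {i j : Fin 4} (hij : i ≠ j)
    (a b : ℕ) (ha : a ≤ 2 ^ (k - 1)) (hb : b ≤ 2 ^ (k - 1)) :
    msd G β L x i j a b ≤ 70 * a * b * ∫ U, cost (tplaq U 0 i j) ∂(tmu G β L) := by
  have h1 := msd_all (G := G) β x i j hL hk hij b a ha
  have h2 := msd_all (G := G) β x j i hL hk hij.symm 1 b hb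
  rw [msd_swap β x j i b 1, msd_swap β x j i 1 1] at h2
  have h3 : msd G β L x i j 1 1 = 2 * ∫ U, cost (tplaq U 0 i j) ∂(tmu G β L) := by
    have h4 := msd_translate (G := G) β (0 : TV L) i j x 1 1
    rw [zero_add] at h4
    rw [h4, msd, ← integral_const_mul]
    refine integral_congr_ae (Filter.Eventually.of_forall fun U => ?_)
    dsimp only
    rw [trect_one_one, dev_sq]
  have h5 : (0 : ℝ) ≤ ∫ U, cost (tplaq U 0 i j) ∂(tmu G β L) :=
    integral_nonneg fun U => cost_nonneg _
  have hs2 : Real.sqrt 2 ^ 2 = 2 := Real.sq_sqrt (by norm_num)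
  have hs0 : 0 ≤ Real.sqrt 2 := Real.sqrt_nonneg 2
  have hs1 : Real.sqrt 2 ≤ 3 / 2 := by nlinarith
  have hc4 : (1 + Real.sqrt 2) ^ 2 * (1 + Real.sqrt 2) ^ 2 * 2 ≤ 70 := by
    have : (1 + Real.sqrt 2) ^ 2 = 3 + 2 * Real.sqrt 2 := by nlinarith
    rw [this]; nlinarith
  generalize (∫ U, cost (tplaq U 0 i j) ∂(tmu G β L)) = E at *
  generalize (1 + Real.sqrt 2) = c at *
  have h6 : 0 ≤ c ^ 2 * (a : ℝ) := by positivity
  have h7 := mul_le_mul_of_nonneg_left h2 h6
  have h8 : 0 ≤ (a : ℝ) * b * E := by positivity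
  have h9 := mul_le_mul_of_nonneg_right hc4 h8
  rw [h3] at h7
  have e1 : c ^ 2 * (a : ℝ) * (c ^ 2 * b * (2 * E)) = c ^ 2 * c ^ 2 * 2 * (a * b * E) := by ring
  have e2 : (70 : ℝ) * (a * b * E) = 70 * a * b * E := by ring
  linarith

/-- All rectangles. -/
theorem loop_all {k : ℕ} (hk : 2 ≤ k) (β : ℝ) (x : TV (2 ^ k)) {i j : Fin 4} (hij : i ≠ j)
    (a b : ℕ) (ha : a ≤ 2 ^ (k - 1)) (hb : b ≤ 2 ^ (k - 1)) :
    ∫ U, dev (trect U x i j a b) ^ 2 ∂(tmu G β (2 ^ k)) ≤
      70 * a * b * ∫ U, cost (tplaq U 0 i j) ∂(tmu G β (2 ^ k)) :=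
  msd_final rfl hk β x hij a b ha hb

end Pool.Agent.Helper82.YM
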